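import Pool.Agent.Helper70.OB.GoalsP
import Pool.Agent.Helper32.OB.MASS

/-!
# Packet PL-MASG: mass of the regularised kernel in general dimension
(adapted from `Pool/Agent/Helper32/OB/MASS.lean`)
-/

open MeasureTheory Set Metric Filter
open scoped ENNReal Topology
open Pool.Agent.Helper70.MM (om om_zero om_one om_rel om_pos om_hasDerivAt om_le om_measurable
  om_succ_succ)

namespace Pool.Agent.Helper42.OB

open Pool.Agent.Helper70.OB Pool.Agent.Helper32.OB

lemma om_exp (j : ℕ) : ∃ C : ℝ, ∀ s : ℝ, 1 ≤ s → om j s ≤ C * Real.exp (-s) := by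
  have h : ∀ j, (∃ C : ℝ, ∀ s : ℝ, 1 ≤ s → om j s ≤ C * Real.exp (-s)) ∧
      ∃ C : ℝ, ∀ s : ℝ, 1 ≤ s → om (j + 1) s ≤ C * Real.exp (-s) := by
    intro j
    induction j with
    | zero =>
      refine ⟨⟨1, fun s _ => ?_⟩, ⟨1, fun s hs => ?_⟩⟩
      · rw [om_zero, one_mul]
      · rw [zero_add, om_one, one_mul]
        exact div_le_self (Real.exp_pos _).le hs
    | succ j ih =>
      obtain ⟨⟨C, hC⟩, ⟨D, hD⟩⟩ := ih
      refine ⟨⟨D, hD⟩, ⟨C + (2 * j + 1) * D, fun s hs => ?_⟩⟩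
      have hs0 : 0 < s := by linarith
      rw [om_succ_succ]
      have h0 : 0 ≤ om j s + (2 * j + 1) * om (j + 1) s := by
        have h1 := om_pos j hs0
        have h2 := om_pos (j + 1) hs0
        positivity
      refine (div_le_self h0 (one_le_pow₀ hs)).trans ?_
      have h3 : (0 : ℝ) ≤ 2 * j + 1 := by positivity
      have h4 := mul_le_mul_of_nonneg_left (hD s hs) h3
      have h5 := hC s hs
      linarith
  exact (h j).1

/-- Integrability of the regularised functions. -/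
lemma int_regG (hO : OMG) {n : ℕ} (hn : 1 ≤ n) (i : ℕ) {ε : ℝ}
    (hε : 0 < ε) :
    IntegrableOn (fun s : ℝ => s ^ (n - 1) * om i (Real.sqrt (s ^ 2 + ε ^ 2))) (Ioi 0) := by
  obtain ⟨C, hC⟩ := om_exp i
  have h5 := (hO n 0 hn (by omega)).1.const_mul (|C| + Real.exp 1 * om i ε)
  have hm : Measurable (fun s : ℝ => s ^ (n - 1) * om i (Real.sqrt (s ^ 2 + ε ^ 2))) :=
    (measurable_id.pow_const _).mul ((om_measurable i).comp (by fun_prop))
  refine Integrable.mono' h5 hm.aestronglyMeasurable ?_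
  refine (ae_restrict_iff' measurableSet_Ioi).mpr (Eventually.of_forall fun s hs => ?_)
  have hs' : 0 < s := hs
  have h6 := om_exp_bound hC hε hs' (rh_ge_e ε s) (rh_ge_s ε s)
  have h7 := om_pos i (rh_pos hε s)
  have h8 : 0 < s ^ (n - 1) := pow_pos hs' _
  rw [Real.norm_eq_abs, abs_of_nonneg (mul_nonneg h8.le h7.le), om_zero]
  calc s ^ (n - 1) * om i (Real.sqrt (s ^ 2 + ε ^ 2))
      ≤ s ^ (n - 1) * ((|C| + Real.exp 1 * om i ε) * Real.exp (-s)) :=
        mul_le_mul_of_nonneg_left h6 h8.le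
    _ = (|C| + Real.exp 1 * om i ε) * (s ^ (n - 1) * Real.exp (-s)) := by ring

/-- The identity for the integrals. -/
lemma main_eqG (hO : OMG) {n : ℕ} (hn : 1 ≤ n) (j : ℕ) {ε : ℝ}
    (hε : 0 < ε) :
    ∫ s in Ioi (0 : ℝ), s ^ (n - 1) * (ε ^ 2 * om (j + 2) (Real.sqrt (s ^ 2 + ε ^ 2))) =
      (∫ s in Ioi (0 : ℝ), s ^ (n - 1) * om j (Real.sqrt (s ^ 2 + ε ^ 2))) -
        ((n : ℝ) - 1 - 2 * j) *
          ∫ s in Ioi (0 : ℝ), s ^ (n - 1) * om (j + 1) (Real.sqrt (s ^ 2 + ε ^ 2)) := by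
  have i0 := int_regG hO hn j hε
  have i1 := int_regG hO hn (j + 1) hε
  have i2 := int_regG hO hn (j + 2) hε
  set ρ : ℝ → ℝ := fun s => Real.sqrt (s ^ 2 + ε ^ 2) with hρ
  set f' : ℝ → ℝ := fun s => s ^ (n - 1) * om j (ρ s) -
    ((n : ℝ) - 1 - 2 * j) * (s ^ (n - 1) * om (j + 1) (ρ s)) -
      ε ^ 2 * (s ^ (n - 1) * om (j + 2) (ρ s)) with hf'
  have hn1 : n - 1 + 1 = n := by omega
  have hder : ∀ s : ℝ, HasDerivAt (fun s => -(s ^ n * om (j + 1) (ρ s))) (f' s) s := by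
    intro s
    have hpos := rh_pos hε s
    have d1 := hasDerivAt_pow n s
    have d2 : HasDerivAt (fun s => om (j + 1) (ρ s))
        (-(ρ s * om (j + 2) (ρ s)) * (s / ρ s)) s :=
      (om_hasDerivAt (j + 1) hpos).comp s (rh_deriv hε s)
    have d3 := (d1.mul d2).neg
    refine d3.congr_deriv ?_
    have hρs : ρ s ≠ 0 := hpos.ne'
    have e1 : -(ρ s * om (j + 2) (ρ s)) * (s / ρ s) = -(s * om (j + 2) (ρ s)) := by
      field_simp
    have e2 : ρ s ^ 2 = s ^ 2 + ε ^ 2 := rh_sq ε s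
    have e3 := om_rel j hpos
    have e3' : ρ s ^ 2 * om (j + 2) (ρ s) = om j (ρ s) + (2 * j + 1) * om (j + 1) (ρ s) := e3
    rw [e1, hf']
    have e4 : s ^ n = s ^ (n - 1) * s := by rw [← pow_succ, hn1]
    have e5 : om j (ρ s) = (s ^ 2 + ε ^ 2) * om (j + 2) (ρ s) - (2 * j + 1) * om (j + 1) (ρ s) := by
      rw [← e2]; linarith
    simp only
    rw [e4, e5]
    ring
  have hint : IntegrableOn f' (Ioi 0) :=
    (i0.sub (i1.const_mul _)).sub (i2.const_mul _)
  have hlim : Tendsto (fun s => -(s ^ n * om (j + 1) (ρ s))) atTop (𝓝 0) := by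
    obtain ⟨C, hC⟩ := om_exp (j + 1)
    have h5 : Tendsto (fun s : ℝ => (|C| + Real.exp 1 * om (j + 1) ε) *
        (s ^ n * Real.exp (-s))) atTop (𝓝 0) := by
      have := (Real.tendsto_pow_mul_exp_neg_atTop_nhds_zero n).const_mul
        (|C| + Real.exp 1 * om (j + 1) ε)
      rwa [mul_zero] at this
    rw [← neg_zero]
    refine Tendsto.neg (squeeze_zero' ?_ ?_ h5)
    · filter_upwards [eventually_gt_atTop 0] with s hs
      exact mul_nonneg (pow_pos hs n).le (om_pos _ (rh_pos hε s)).le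
    · filter_upwards [eventually_gt_atTop 0] with s hs
      have h6 := om_exp_bound hC hε hs (rh_ge_e ε s) (rh_ge_s ε s)
      calc s ^ n * om (j + 1) (ρ s)
          ≤ s ^ n * ((|C| + Real.exp 1 * om (j + 1) ε) * Real.exp (-s)) :=
            mul_le_mul_of_nonneg_left h6 (pow_pos hs n).le
        _ = (|C| + Real.exp 1 * om (j + 1) ε) * (s ^ n * Real.exp (-s)) := by ring
  have h6 := integral_Ioi_of_hasDerivAt_of_tendsto
    (hder 0).continuousAt.continuousWithinAt (fun s _ => hder s) hint hlim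
  have h7 : (0 : ℝ) ^ n = 0 := zero_pow (by omega)
  rw [h7, zero_mul, neg_zero, sub_zero] at h6
  have h8 : ∫ s in Ioi (0 : ℝ), f' s = (∫ s in Ioi (0 : ℝ), s ^ (n - 1) * om j (ρ s)) -
      ((n : ℝ) - 1 - 2 * j) * (∫ s in Ioi (0 : ℝ), s ^ (n - 1) * om (j + 1) (ρ s)) -
        ε ^ 2 * ∫ s in Ioi (0 : ℝ), s ^ (n - 1) * om (j + 2) (ρ s) := by
    rw [hf']
    rw [integral_sub, integral_sub, integral_const_mul, integral_const_mul]
    · exact i0
    · exact i1.const_mul _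
    · exact i0.sub (i1.const_mul _)
    · exact i2.const_mul _
  have h9 : ∫ s in Ioi (0 : ℝ), s ^ (n - 1) * (ε ^ 2 * om (j + 2) (ρ s)) =
      ε ^ 2 * ∫ s in Ioi (0 : ℝ), s ^ (n - 1) * om (j + 2) (ρ s) := by
    rw [← integral_const_mul]
    congr 1
    ext s
    ring
  rw [h9]
  linarith

/-- Dominated convergence. -/
lemma lim_regG (hO : OMG) {n : ℕ} (hn : 1 ≤ n) {j : ℕ} (hj : 2 * j ≤ n) :
    Tendsto (fun ε : ℝ => ∫ s in Ioi (0 : ℝ), s ^ (n - 1) * om j (Real.sqrt (s ^ 2 + ε ^ 2)))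
      (𝓝[>] 0) (𝓝 (AA n j)) := by
  unfold AA
  refine tendsto_integral_filter_of_dominated_convergence (fun s : ℝ => s ^ (n - 1) * om j s)
    ?_ ?_ (hO n j hn hj).1 ?_
  · refine Eventually.of_forall fun ε => ?_
    exact ((measurable_id.pow_const _).mul
      ((om_measurable j).comp (by fun_prop))).aestronglyMeasurable
  · filter_upwards [self_mem_nhdsWithin] with ε hε
    refine (ae_restrict_iff' measurableSet_Ioi).mpr (Eventually.of_forall fun s hs => ?_)
    have hs' : 0 < s := hs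
    have h8 : 0 < s ^ (n - 1) := pow_pos hs' _
    rw [Real.norm_eq_abs, abs_of_nonneg (mul_nonneg h8.le (om_pos j (rh_pos hε s)).le)]
    exact mul_le_mul_of_nonneg_left (om_le j hs' (rh_ge_s ε s)) h8.le
  · refine (ae_restrict_iff' measurableSet_Ioi).mpr (Eventually.of_forall fun s hs => ?_)
    have hs' : 0 < s := hs
    refine Tendsto.const_mul _ ?_
    have h2 : ContinuousAt (om j) s := (om_hasDerivAt j hs').continuousAt
    have h3 : Tendsto (fun ε : ℝ => Real.sqrt (s ^ 2 + ε ^ 2)) (𝓝[>] 0) (𝓝 s) := by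
      have h4 : Continuous (fun ε : ℝ => Real.sqrt (s ^ 2 + ε ^ 2)) := by fun_prop
      have h5 := (h4.tendsto 0).mono_left (nhdsWithin_le_nhds (s := Ioi (0 : ℝ)))
      have h6 : Real.sqrt (s ^ 2 + (0 : ℝ) ^ 2) = s := by
        rw [zero_pow two_ne_zero, add_zero, Real.sqrt_sq hs'.le]
      rwa [h6] at h5
    exact h2.tendsto.comp h3

/-- Packet PL-MASG. -/
theorem masg : OMG → MASG := by
  intro hO n j hn hj
  have hco : 0 ≤ (n : ℝ) - 1 - 2 * j := by
    have : (2 : ℝ) * (j + 1) ≤ n := by exact_mod_cast hj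
    linarith
  refine ⟨fun ε hε => ⟨?_, ?_⟩, ?_⟩
  · have h5 := (int_regG hO hn (j + 2) hε).const_mul (ε ^ 2)
    refine h5.congr (Eventually.of_forall fun s => ?_)
    simp only
    ring
  · rw [main_eqG hO hn j hε]
    have h5 : ∫ s in Ioi (0 : ℝ), s ^ (n - 1) * om j (Real.sqrt (s ^ 2 + ε ^ 2)) ≤ AA n j := by
      unfold AA
      refine setIntegral_mono_on (int_regG hO hn j hε) (hO n j hn (by omega)).1
        measurableSet_Ioi ?_
      intro s hs
      have hs' : 0 < s := hs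
      exact mul_le_mul_of_nonneg_left (om_le j hs' (rh_ge_s ε s)) (pow_pos hs' _).le
    have h6 : 0 ≤ ∫ s in Ioi (0 : ℝ), s ^ (n - 1) * om (j + 1) (Real.sqrt (s ^ 2 + ε ^ 2)) := by
      refine setIntegral_nonneg measurableSet_Ioi fun s hs => ?_
      have hs' : 0 < s := hs
      exact mul_nonneg (pow_pos hs' _).le (om_pos _ (rh_pos hε s)).le
    have h7 := mul_nonneg hco h6
    linarith
  · have h5 : (fun ε : ℝ => ∫ s in Ioi (0 : ℝ),
        s ^ (n - 1) * (ε ^ 2 * om (j + 2) (Real.sqrt (s ^ 2 + ε ^ 2)))) =ᶠ[𝓝[>] 0]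
        fun ε : ℝ => (∫ s in Ioi (0 : ℝ), s ^ (n - 1) * om j (Real.sqrt (s ^ 2 + ε ^ 2))) -
          ((n : ℝ) - 1 - 2 * j) *
            ∫ s in Ioi (0 : ℝ), s ^ (n - 1) * om (j + 1) (Real.sqrt (s ^ 2 + ε ^ 2)) := by
      filter_upwards [self_mem_nhdsWithin] with ε hε
      exact main_eqG hO hn j hε
    rw [tendsto_congr' h5]
    have h6 := (lim_regG hO hn (j := j) (by omega)).sub
      ((lim_regG hO hn (j := j + 1) (by omega)).const_mul ((n : ℝ) - 1 - 2 * j))
    have h7 : AA n j - ((n : ℝ) - 1 - 2 * j) * AA n (j + 1) = 0 := by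
      rw [(hO n j hn (by omega)).2 hj]; ring
    rwa [h7] at h6

end Pool.Agent.Helper42.OB
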